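import Mathlib

/-!
# Which sets of primes have all rational solutions among the quotients of polynomial solutions

Let `P` be a set of primes. Every sequence of rational functions with support `S(P)` which satisfies
`f_{mn}(q) = f_m(q) f_n(q^m)` is a quotient of two sequences of polynomials with the same properties
if and only if `P` has at most one element.

Proof. If `P = {p}` then `f_{p^k}(q) = f_p(q) f_p(q^p) ... f_p(q^{p^{k-1}})`, and `f_p` is a quotient of
polynomials. Let `p ≠ r` be in `P`, and `f_n = (q^n - 2) / (q - 2)` for `n` in `S(P)`. Suppose that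
`f = F / G`. Then `G_p(2) = 0`. From `G_{p^k}(q) G_{r^l}(q^{p^k}) = G_{r^l}(q) G_{p^k}(q^{r^l})` at
`q = 2^(1/p^(k-1))`, `l` large, we see that some `2^(r^j/p^(k-1))` is a zero of `G_r`. As `k` is
arbitrary, `G_r` has infinitely many zeros.
-/

set_option autoImplicit false

namespace Pool.Agent.Results.MP_bcdf42_nt.QuotientsOfPolynomialSolutions

open Polynomial

/-- the rational function `f(q^m)` -/
noncomputable def powSubst (m : ℕ) (f : RatFunc ℂ) : RatFunc ℂ :=
  RatFunc.eval (algebraMap ℂ (RatFunc ℂ)) (RatFunc.X ^ m) f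

/-- The sequence `f_1, f_2, ...` of rational functions has the support `S(P)` (the multiplicative
semigroup generated by `P`, including `1`) and satisfies the functional equation
`f_{mn}(q) = f_m(q) f_n(q^m)`. -/
def RationalSolution (P : Set ℕ) (f : ℕ+ → RatFunc ℂ) : Prop :=
  (∀ n : ℕ+, f n ≠ 0 ↔ (n : ℕ) ∈ Submonoid.closure P) ∧
    ∀ m n : ℕ+, f (m * n) = f m * powSubst m (f n)

/-- `Γ(P)`: the sequences of polynomials with support `S(P)` which satisfy the functional equation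
`f_{mn}(q) = f_m(q) f_n(q^m)`. -/
def Gam (P : Set ℕ) : Set (ℕ+ → ℂ[X]) :=
  {f | (∀ n : ℕ+, f n ≠ 0 ↔ (n : ℕ) ∈ Submonoid.closure P) ∧
    ∀ m n : ℕ+, f (m * n) = f m * (f n).comp (X ^ (m : ℕ))}

/-- `K(Γ(P))`: the sequences `F / G`, with the terms `F_n / G_n` for `n` in `S(P)` and `0` otherwise,
where `F` and `G` are in `Γ(P)`. -/
def KGam (P : Set ℕ) : Set (ℕ+ → RatFunc ℂ) :=
  {f | ∃ F ∈ Gam P, ∃ G ∈ Gam P, ∀ n : ℕ+,
    ((n : ℕ) ∈ Submonoid.closure P → f n = algebraMap ℂ[X] (RatFunc ℂ) (F n) / algebraMap ℂ[X] (RatFunc ℂ) (G n)) ∧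
    ((n : ℕ) ∉ Submonoid.closure P → f n = 0)}

theorem comp_ne_zero {m : ℕ} (hm : m ≠ 0) {a : ℂ[X]} (ha : a ≠ 0) : a.comp (X ^ m) ≠ 0 := by
  intro h
  rw [Polynomial.comp_eq_zero_iff] at h
  rcases h with h | ⟨_, h⟩
  · exact ha h
  · have := congrArg natDegree h
    rw [natDegree_X_pow, natDegree_C] at this
    exact hm this

theorem eval₂_pow (m : ℕ) (a : ℂ[X]) :
    a.eval₂ (algebraMap ℂ (RatFunc ℂ)) (RatFunc.X ^ m) = algebraMap ℂ[X] (RatFunc ℂ) (a.comp (X ^ m)) := by
  induction a using Polynomial.induction_on' with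
  | add a b ha hb => rw [eval₂_add, ha, hb, add_comp, map_add]
  | monomial n c =>
    rw [eval₂_monomial, monomial_comp, map_mul, map_pow, map_pow, RatFunc.algebraMap_X]
    congr 1

theorem powSubst_div {m : ℕ} (hm : m ≠ 0) (a b : ℂ[X]) (hb : b ≠ 0) :
    powSubst m (algebraMap ℂ[X] (RatFunc ℂ) a / algebraMap ℂ[X] (RatFunc ℂ) b) =
      algebraMap ℂ[X] (RatFunc ℂ) (a.comp (X ^ m)) / algebraMap ℂ[X] (RatFunc ℂ) (b.comp (X ^ m)) := by
  obtain ⟨f, hf⟩ : ∃ f, f = algebraMap ℂ[X] (RatFunc ℂ) a / algebraMap ℂ[X] (RatFunc ℂ) b := ⟨_, rfl⟩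
  rw [← hf]
  have hd : f.denom ≠ 0 := RatFunc.denom_ne_zero f
  have hinj := RatFunc.algebraMap_injective ℂ
  have hb' : algebraMap ℂ[X] (RatFunc ℂ) b ≠ 0 := by
    rw [Ne, map_eq_zero_iff _ hinj]; exact hb
  have hd' : algebraMap ℂ[X] (RatFunc ℂ) f.denom ≠ 0 := by
    rw [Ne, map_eq_zero_iff _ hinj]; exact hd
  have h1 : f.num * b = a * f.denom := by
    apply hinj
    rw [map_mul, map_mul]
    have h2 := RatFunc.num_div_denom f
    rw [hf] at h2
    rw [← hf] at h2
    have h3 : algebraMap ℂ[X] (RatFunc ℂ) f.num / algebraMap ℂ[X] (RatFunc ℂ) f.denom =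
        algebraMap ℂ[X] (RatFunc ℂ) a / algebraMap ℂ[X] (RatFunc ℂ) b := by rw [h2, hf]
    rwa [div_eq_div_iff hd' hb'] at h3
  have h4 := congrArg (fun c : ℂ[X] => algebraMap ℂ[X] (RatFunc ℂ) (c.comp (X ^ m))) h1
  simp only [mul_comp, map_mul] at h4
  unfold powSubst RatFunc.eval
  rw [eval₂_pow, eval₂_pow, div_eq_div_iff]
  · exact h4
  · rw [Ne, map_eq_zero_iff _ hinj]; exact comp_ne_zero hm hd
  · rw [Ne, map_eq_zero_iff _ hinj]; exact comp_ne_zero hm hb

theorem mem_closure_of_mul {P : Set ℕ} (hP : ∀ p ∈ P, p.Prime) {m n : ℕ} (hm : m ≠ 0) (hn : n ≠ 0) :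
    m * n ∈ Submonoid.closure P ↔ m ∈ Submonoid.closure P ∧ n ∈ Submonoid.closure P := by
  have key : ∀ a : ℕ, a ≠ 0 → (a ∈ Submonoid.closure P ↔ ∀ q, q.Prime → q ∣ a → q ∈ P) := by
    intro a ha
    constructor
    · intro h
      induction h using Submonoid.closure_induction with
      | mem x hx =>
        intro q hq hqx
        rwa [(Nat.prime_dvd_prime_iff_eq hq (hP x hx)).1 hqx]
      | one =>
        intro q hq hq1
        exact absurd (Nat.dvd_one.1 hq1) hq.one_lt.ne'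
      | mul x y _ _ hx hy =>
        intro q hq hqx
        rcases (hq.dvd_mul).1 hqx with h | h
        · exact hx (by rintro rfl; simp at ha) q hq h
        · exact hy (by rintro rfl; simp at ha) q hq h
    · intro h
      rw [← Nat.prod_primeFactorsList ha]
      apply Submonoid.list_prod_mem
      intro q hq
      exact Submonoid.subset_closure (h q (Nat.prime_of_mem_primeFactorsList hq)
        (Nat.dvd_of_mem_primeFactorsList hq))
  rw [key _ (mul_ne_zero hm hn), key _ hm, key _ hn]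
  constructor
  · intro h
    exact ⟨fun q hq hd => h q hq (hd.mul_right n), fun q hq hd => h q hq (hd.mul_left m)⟩
  · rintro ⟨h1, h2⟩ q hq hd
    rcases (hq.dvd_mul).1 hd with h | h
    · exact h1 q hq h
    · exact h2 q hq h

/-- the solution with a pole at `2` -/
noncomputable def bad (P : Set ℕ) (n : ℕ+) : RatFunc ℂ := by
  classical
  exact if (n : ℕ) ∈ Submonoid.closure P then
    algebraMap ℂ[X] (RatFunc ℂ) (X ^ (n : ℕ) - C 2) / algebraMap ℂ[X] (RatFunc ℂ) (X - C 2) else 0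

theorem bad_solution {P : Set ℕ} (hP : ∀ p ∈ P, p.Prime) : RationalSolution P (bad P) := by
  have hinj := RatFunc.algebraMap_injective ℂ
  have h0 : ∀ n : ℕ+, (X ^ (n : ℕ) - C 2 : ℂ[X]) ≠ 0 := fun n => X_pow_sub_C_ne_zero n.pos 2
  have h1 : (X - C 2 : ℂ[X]) ≠ 0 := X_sub_C_ne_zero 2
  refine ⟨fun n => ?_, fun m n => ?_⟩
  · unfold bad
    split_ifs with h
    · refine ⟨fun _ => h, fun _ => ?_⟩
      rw [div_ne_zero_iff, Ne, map_eq_zero_iff _ hinj, Ne, map_eq_zero_iff _ hinj]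
      exact ⟨h0 n, h1⟩
    · simp [h]
  · have hc := mem_closure_of_mul hP m.ne_zero n.ne_zero
    by_cases hm : (m : ℕ) ∈ Submonoid.closure P
    · by_cases hn : (n : ℕ) ∈ Submonoid.closure P
      · have hmn : ((m * n : ℕ+) : ℕ) ∈ Submonoid.closure P := by
          rw [PNat.mul_coe]; exact hc.2 ⟨hm, hn⟩
        unfold bad
        rw [if_pos hmn, if_pos hm, if_pos hn, powSubst_div m.ne_zero _ _ h1]
        simp only [sub_comp, X_comp, C_comp, pow_comp, ← pow_mul, PNat.mul_coe]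
        have h2 : algebraMap ℂ[X] (RatFunc ℂ) (X ^ (m : ℕ) - C 2) ≠ 0 := by
          rw [Ne, map_eq_zero_iff _ hinj]; exact h0 m
        field_simp
      · have hmn : ((m * n : ℕ+) : ℕ) ∉ Submonoid.closure P := by
          rw [PNat.mul_coe]; exact fun h => hn (hc.1 h).2
        unfold bad
        rw [if_neg hmn, if_neg hn]
        simp [powSubst, RatFunc.eval]
    · have hmn : ((m * n : ℕ+) : ℕ) ∉ Submonoid.closure P := by
        rw [PNat.mul_coe]; exact fun h => hm (hc.1 h).1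
      unfold bad
      rw [if_neg hmn, if_neg hm, zero_mul]

theorem gam_one {P : Set ℕ} {G : ℕ+ → ℂ[X]} (hG : G ∈ Gam P) : G 1 = 1 := by
  have h1 : G 1 ≠ 0 := (hG.1 1).2 (by simpa using Submonoid.one_mem _)
  have h2 := hG.2 1 1
  rw [mul_one] at h2
  simp only [PNat.one_coe, pow_one, comp_X] at h2
  exact (mul_left_cancel₀ h1 (by rw [mul_one]; exact h2)).symm

theorem gam_eval {P : Set ℕ} {G : ℕ+ → ℂ[X]} (hG : G ∈ Gam P) (m n : ℕ+) (x : ℂ) :
    (G (m * n)).eval x = (G m).eval x * (G n).eval (x ^ (m : ℕ)) := by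
  rw [hG.2 m n, eval_mul, eval_comp, eval_pow, eval_X]

theorem gam_pow {P : Set ℕ} {G : ℕ+ → ℂ[X]} (hG : G ∈ Gam P) (p : ℕ+) (k : ℕ) (x : ℂ) :
    (G (p ^ k)).eval x = ∏ i ∈ Finset.range k, (G p).eval (x ^ ((p : ℕ) ^ i)) := by
  induction k with
  | zero => simp [gam_one hG]
  | succ k ih =>
    rw [pow_succ, gam_eval hG, ih, Finset.prod_range_succ, PNat.pow_coe]

/-- a polynomial solution for two primes has no zero at `2` -/
theorem gam_two {P : Set ℕ} {G : ℕ+ → ℂ[X]} (hG : G ∈ Gam P) {p r : ℕ+} (hp : (p : ℕ).Prime)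
    (hr : (r : ℕ).Prime) (hpr : p ≠ r) (hpP : (p : ℕ) ∈ P) (hrP : (r : ℕ) ∈ P)
    (h2 : (G p).eval 2 = 0) : False := by
  have hp0 : G p ≠ 0 := (hG.1 p).2 (Submonoid.subset_closure hpP)
  have hr0 : G r ≠ 0 := (hG.1 r).2 (Submonoid.subset_closure hrP)
  -- a bound for the zeros
  obtain ⟨B, hB⟩ : ∃ B : ℝ, ∀ z : ℂ, (G p).eval z = 0 → ‖z‖ ≤ B := by
    have hfin : {z : ℂ | (G p).eval z = 0}.Finite := by
      have := (G p).roots.toFinset.finite_toSet
      refine this.subset fun z hz => ?_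
      simp only [Set.mem_ofPred_eq] at hz
      simp [hp0, hz, Polynomial.IsRoot]
    obtain ⟨B, hB⟩ := hfin.isBounded.exists_norm_le
    exact ⟨B, fun z hz => hB z hz⟩
  -- the zeros of `G r`
  have key : ∀ k : ℕ, ∃ j : ℕ,
      (G r).eval ((((2 : ℝ) ^ (((r : ℕ) : ℝ) ^ j / ((p : ℕ) : ℝ) ^ k) : ℝ)) : ℂ) = 0 := by
    intro k
    obtain ⟨x, hx⟩ : ∃ x : ℝ, x = (2 : ℝ) ^ ((1 : ℝ) / ((p : ℕ) : ℝ) ^ k) := ⟨_, rfl⟩
    have hppos : (0 : ℝ) < ((p : ℕ) : ℝ) ^ k := by
      have : (0 : ℝ) < ((p : ℕ) : ℝ) := by exact_mod_cast p.pos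
      positivity
    have hx1 : 1 < x := by
      rw [hx]
      exact Real.one_lt_rpow (by norm_num) (by positivity)
    have hxk : x ^ ((p : ℕ) ^ k) = 2 := by
      rw [hx, ← Real.rpow_natCast, ← Real.rpow_mul (by norm_num)]
      push_cast
      rw [one_div, inv_mul_cancel₀ hppos.ne', Real.rpow_one]
    have hxj : ∀ j : ℕ, x ^ ((r : ℕ) ^ j) = (2 : ℝ) ^ (((r : ℕ) : ℝ) ^ j / ((p : ℕ) : ℝ) ^ k) := by
      intro j
      rw [hx, ← Real.rpow_natCast, ← Real.rpow_mul (by norm_num)]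
      push_cast
      congr 1
      field_simp
    -- choose `l` large
    obtain ⟨l, hl⟩ : ∃ l : ℕ, B < x ^ ((r : ℕ) ^ l) := by
      obtain ⟨N, hN⟩ := pow_unbounded_of_one_lt B hx1
      refine ⟨N, lt_of_lt_of_le hN ?_⟩
      exact pow_le_pow_right₀ hx1.le (Nat.lt_pow_self hr.one_lt).le
    have e1 : (G (p ^ (k + 1))).eval (x : ℂ) = 0 := by
      rw [gam_pow hG, Finset.prod_eq_zero (Finset.mem_range.2 (Nat.lt_succ_self k))]
      rw [← Complex.ofReal_pow, hxk]
      simpa using h2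
    have e2 : (G (p ^ (k + 1))).eval ((x : ℂ) ^ ((r : ℕ) ^ l)) ≠ 0 := by
      rw [gam_pow hG, Finset.prod_ne_zero_iff]
      intro i _ h0
      have := hB _ h0
      rw [← Complex.ofReal_pow, ← Complex.ofReal_pow, Complex.norm_real, Real.norm_of_nonneg (by positivity)] at this
      have h3 : x ^ ((r : ℕ) ^ l) ≤ (x ^ ((r : ℕ) ^ l)) ^ ((p : ℕ) ^ i) := by
        apply le_self_pow₀
        · exact one_le_pow₀ hx1.le
        · exact (pow_pos p.pos i).ne'
      linarith
    have e3 : (G (r ^ l)).eval (x : ℂ) = 0 := by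
      have h4 := gam_eval hG (p ^ (k + 1)) (r ^ l) (x : ℂ)
      have h5 := gam_eval hG (r ^ l) (p ^ (k + 1)) (x : ℂ)
      rw [e1, zero_mul] at h4
      rw [mul_comm, h4, PNat.pow_coe] at h5
      rcases mul_eq_zero.1 h5.symm with h | h
      · exact h
      · exact absurd h e2
    rw [gam_pow hG, Finset.prod_eq_zero_iff] at e3
    obtain ⟨j, _, hj⟩ := e3
    refine ⟨j, ?_⟩
    rw [← hxj j, Complex.ofReal_pow]
    exact hj
  choose j hj using key
  -- injectivity
  have hinj : Function.Injective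
      (fun k : ℕ => ((((2 : ℝ) ^ (((r : ℕ) : ℝ) ^ (j k) / ((p : ℕ) : ℝ) ^ k) : ℝ)) : ℂ)) := by
    intro a b hab
    simp only [Complex.ofReal_inj] at hab
    have hp' : (0 : ℝ) < ((p : ℕ) : ℝ) := by exact_mod_cast p.pos
    have h1 : ((r : ℕ) : ℝ) ^ (j a) / ((p : ℕ) : ℝ) ^ a = ((r : ℕ) : ℝ) ^ (j b) / ((p : ℕ) : ℝ) ^ b :=
      (Real.rpow_right_inj (by norm_num) (by norm_num)).1 hab
    rw [div_eq_div_iff (by positivity) (by positivity)] at h1
    have h2 : (r : ℕ) ^ (j a) * (p : ℕ) ^ b = (r : ℕ) ^ (j b) * (p : ℕ) ^ a := by exact_mod_cast h1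
    have hne : (p : ℕ) ≠ (r : ℕ) := fun h => hpr (PNat.coe_injective h)
    have h3 : ∀ u v : ℕ, ((r : ℕ) ^ u * (p : ℕ) ^ v).factorization (p : ℕ) = v := by
      intro u v
      rw [Nat.factorization_mul (pow_pos r.pos u).ne' (pow_pos p.pos v).ne', Nat.factorization_pow,
        Nat.factorization_pow]
      simp [hp.factorization_self, hr.factorization, Finsupp.single_apply, hne.symm]
    have h4 := h3 (j a) b
    rw [h2, h3] at h4
    exact h4
  have hfin : {z : ℂ | (G r).eval z = 0}.Finite := by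
    have := (G r).roots.toFinset.finite_toSet
    refine this.subset fun z hz => ?_
    simp only [Set.mem_ofPred_eq] at hz
    simp [hr0, hz, Polynomial.IsRoot]
  exact (Set.infinite_of_injective_forall_mem hinj (fun k => hj k)) hfin

/-- powers of `p` -/
theorem mem_closure_singleton {p : ℕ} (n : ℕ) :
    n ∈ Submonoid.closure ({p} : Set ℕ) ↔ ∃ k : ℕ, p ^ k = n := by
  rw [Submonoid.mem_closure_singleton]

/-- the polynomial solution generated by `a` -/
noncomputable def gen (p : ℕ) (a : ℂ[X]) (n : ℕ+) : ℂ[X] := by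
  classical
  exact if (n : ℕ) ∈ Submonoid.closure ({p} : Set ℕ) then
    ∏ i ∈ Finset.range (Nat.log p n), a.comp (X ^ (p ^ i)) else 0

theorem gen_pow {p : ℕ} (hp : p.Prime) (a : ℂ[X]) (n : ℕ+) (k : ℕ) (hn : (n : ℕ) = p ^ k) :
    gen p a n = ∏ i ∈ Finset.range k, a.comp (X ^ (p ^ i)) := by
  unfold gen
  rw [if_pos ((mem_closure_singleton _).2 ⟨k, hn.symm⟩), hn, Nat.log_pow hp.one_lt]

theorem gen_mem {p : ℕ} (hp : p.Prime) {a : ℂ[X]} (ha : a ≠ 0) : gen p a ∈ Gam {p} := by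
  refine ⟨fun n => ?_, fun m n => ?_⟩
  · by_cases h : (n : ℕ) ∈ Submonoid.closure ({p} : Set ℕ)
    · refine ⟨fun _ => h, fun _ => ?_⟩
      obtain ⟨k, hk⟩ := (mem_closure_singleton _).1 h
      rw [gen_pow hp a n k hk.symm, Finset.prod_ne_zero_iff]
      intro i _
      exact comp_ne_zero (pow_pos hp.pos i).ne' ha
    · refine ⟨fun h1 => absurd ?_ h1, fun h1 => absurd h1 h⟩
      unfold gen
      rw [if_neg h]
  · have hc := mem_closure_of_mul (P := {p}) (by rintro q rfl; exact hp) m.ne_zero n.ne_zero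
    by_cases hm : (m : ℕ) ∈ Submonoid.closure ({p} : Set ℕ)
    · by_cases hn : (n : ℕ) ∈ Submonoid.closure ({p} : Set ℕ)
      · obtain ⟨k, hk⟩ := (mem_closure_singleton _).1 hm
        obtain ⟨l, hl⟩ := (mem_closure_singleton _).1 hn
        rw [gen_pow hp a m k hk.symm, gen_pow hp a n l hl.symm,
          gen_pow hp a (m * n) (k + l) (by rw [PNat.mul_coe, ← hk, ← hl, pow_add]),
          Finset.prod_range_add, Polynomial.prod_comp]
        congr 1
        refine Finset.prod_congr rfl fun i _ => ?_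
        rw [comp_assoc, pow_comp, X_comp, ← pow_mul, ← hk, pow_add]
      · have hmn : ((m * n : ℕ+) : ℕ) ∉ Submonoid.closure ({p} : Set ℕ) := by
          rw [PNat.mul_coe]; exact fun h => hn (hc.1 h).2
        have e1 : gen p a (m * n) = 0 := by unfold gen; rw [if_neg hmn]
        have e2 : gen p a n = 0 := by unfold gen; rw [if_neg hn]
        rw [e1, e2, zero_comp, mul_zero]
    · have hmn : ((m * n : ℕ+) : ℕ) ∉ Submonoid.closure ({p} : Set ℕ) := by
        rw [PNat.mul_coe]; exact fun h => hm (hc.1 h).1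
      have e1 : gen p a (m * n) = 0 := by unfold gen; rw [if_neg hmn]
      have e2 : gen p a m = 0 := by unfold gen; rw [if_neg hm]
      rw [e1, e2, zero_mul]

theorem rat_one {P : Set ℕ} {f : ℕ+ → RatFunc ℂ} (hf : RationalSolution P f) : f 1 = 1 := by
  have h1 : f 1 ≠ 0 := (hf.1 1).2 (by simpa using Submonoid.one_mem _)
  have h2 := hf.2 1 1
  rw [mul_one] at h2
  have hinj := RatFunc.algebraMap_injective ℂ
  have h3 : powSubst ((1 : ℕ+) : ℕ) (f 1) = f 1 := by
    rw [← RatFunc.num_div_denom (f 1)]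
    rw [powSubst_div (by simp) _ _ (RatFunc.denom_ne_zero _)]
    simp
  rw [h3] at h2
  exact (mul_left_cancel₀ h1 (by rw [mul_one]; exact h2)).symm

theorem rat_pow {p : ℕ} (hp : p.Prime) {f : ℕ+ → RatFunc ℂ} (hf : RationalSolution {p} f)
    {a b : ℂ[X]} (hb : b ≠ 0) (p' : ℕ+) (hp' : (p' : ℕ) = p)
    (hab : f p' = algebraMap ℂ[X] (RatFunc ℂ) a / algebraMap ℂ[X] (RatFunc ℂ) b)
    (k : ℕ) (n : ℕ+) (hn : (n : ℕ) = p ^ k) :
    f n = algebraMap ℂ[X] (RatFunc ℂ) (gen p a n) / algebraMap ℂ[X] (RatFunc ℂ) (gen p b n) := by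
  rw [gen_pow hp a n k hn, gen_pow hp b n k hn]
  induction k generalizing n with
  | zero =>
    have : n = 1 := PNat.coe_injective (by simpa using hn)
    rw [this, rat_one hf]
    simp
  | succ k ih =>
    have e : n = (p' ^ k) * p' := by
      apply PNat.coe_injective
      rw [PNat.mul_coe, PNat.pow_coe, hp', hn, pow_succ]
    have e2 : ((p' ^ k : ℕ+) : ℕ) = p ^ k := by rw [PNat.pow_coe, hp']
    rw [e, hf.2, ih (p' ^ k) e2, hab, e2, powSubst_div (pow_pos hp.pos k).ne' _ _ hb,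
      Finset.prod_range_succ, Finset.prod_range_succ, map_mul, map_mul, div_mul_div_comm]

/-- **The answer to the question.** Let `P` be a set of primes. Every sequence of rational functions
with support `S(P)` which satisfies the functional equation is in `K(Γ(P))` if and only if `P` has at
most one element. -/
theorem result (P : Set ℕ) (hP : ∀ p ∈ P, p.Prime) :
    (∀ f : ℕ+ → RatFunc ℂ, RationalSolution P f → f ∈ KGam P) ↔ P.Subsingleton := by
  have hinj := RatFunc.algebraMap_injective ℂ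
  constructor
  · intro h p hp r hr
    by_contra hpr
    obtain ⟨F, hF, G, hG, hFG⟩ := h _ (bad_solution hP)
    have hpp := hP p hp
    have hrp := hP r hr
    obtain ⟨p', hp'⟩ : ∃ p' : ℕ+, (p' : ℕ) = p := ⟨⟨p, hpp.pos⟩, rfl⟩
    obtain ⟨r', hr'⟩ : ∃ r' : ℕ+, (r' : ℕ) = r := ⟨⟨r, hrp.pos⟩, rfl⟩
    have hmem : (p' : ℕ) ∈ Submonoid.closure P := by rw [hp']; exact Submonoid.subset_closure hp
    have h1 := (hFG p').1 hmem
    unfold bad at h1
    rw [if_pos hmem] at h1
    have hG0 : G p' ≠ 0 := (hG.1 p').2 hmem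
    rw [div_eq_div_iff (by rw [Ne, map_eq_zero_iff _ hinj]; exact X_sub_C_ne_zero 2)
      (by rw [Ne, map_eq_zero_iff _ hinj]; exact hG0), ← map_mul, ← map_mul] at h1
    have h2 := congrArg (eval (2 : ℂ)) (hinj h1)
    simp only [eval_mul, eval_sub, eval_pow, eval_X, eval_C, sub_self, mul_zero] at h2
    have h3 : ((2 : ℂ) ^ (p' : ℕ) - 2) ≠ 0 := by
      rw [hp', sub_ne_zero]
      intro h
      have h4 : (2 : ℕ) ^ p = 2 := by exact_mod_cast h
      have h5 : (2 : ℕ) ^ 2 ≤ 2 ^ p := Nat.pow_le_pow_right (by norm_num) hpp.two_le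
      omega
    have h6 : (G p').eval 2 = 0 := by
      rcases mul_eq_zero.1 h2 with h | h
      · exact absurd h h3
      · exact h
    exact gam_two hG (p := p') (r := r') (by rw [hp']; exact hpp) (by rw [hr']; exact hrp)
      (fun h => hpr (by rw [← hp', ← hr', h])) (by rw [hp']; exact hp) (by rw [hr']; exact hr) h6
  · intro hs f hf
    rcases hs.eq_empty_or_singleton with rfl | ⟨p, rfl⟩
    · -- the empty set
      have hcl : ∀ n : ℕ+, (n : ℕ) ∈ Submonoid.closure (∅ : Set ℕ) ↔ n = 1 := by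
        intro n
        rw [Submonoid.closure_empty, Submonoid.mem_bot]
        exact ⟨fun h => PNat.coe_injective (by simpa using h), fun h => by rw [h]; rfl⟩
      have hE : (fun n : ℕ+ => if n = 1 then (1 : ℂ[X]) else 0) ∈ Gam ∅ := by
        refine ⟨fun n => ?_, fun m n => ?_⟩
        · rw [hcl]
          by_cases h : n = 1 <;> simp [h]
        · by_cases hm : m = 1
          · by_cases hn : n = 1 <;> simp [hm, hn]
          · have : m * n ≠ 1 := fun h => hm (PNat.coe_injective (by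
              have := congrArg (fun z : ℕ+ => (z : ℕ)) h
              simp only [PNat.mul_coe, PNat.one_coe] at this
              exact Nat.eq_one_of_mul_eq_one_right this))
            simp [hm, this]
      refine ⟨_, hE, _, hE, fun n => ⟨fun h => ?_, fun h => ?_⟩⟩
      · rw [(hcl n).1 h, rat_one hf]
        simp
      · by_contra h0
        exact h ((hf.1 n).1 h0)
    · -- one prime
      have hp : p.Prime := hP p rfl
      obtain ⟨p', hp'⟩ : ∃ p' : ℕ+, (p' : ℕ) = p := ⟨⟨p, hp.pos⟩, rfl⟩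
      have hden : (f p').denom ≠ 0 := RatFunc.denom_ne_zero _
      have hfp : f p' ≠ 0 := (hf.1 _).2 (Submonoid.subset_closure (by rw [hp']; rfl))
      have hnum : (f p').num ≠ 0 := RatFunc.num_ne_zero hfp
      refine ⟨_, gen_mem hp hnum, _, gen_mem hp hden, fun n => ⟨fun h => ?_, fun h => ?_⟩⟩
      · obtain ⟨k, hk⟩ := (mem_closure_singleton _).1 h
        exact rat_pow hp hf hden p' hp' (RatFunc.num_div_denom _).symm k n hk.symm
      · by_contra h0
        exact h ((hf.1 n).1 h0)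

end Pool.Agent.Results.MP_bcdf42_nt.QuotientsOfPolynomialSolutions
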